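import Pool.Agent.H6.Shai.Main
import Pool.Agent.H6.Shai.Stone

/-!
# `C(βℕ \ ℕ)` has the SHAI property

`Remainder` is the subspace `βℕ \ ℕ` of Mathlib's Stone–Čech compactification of the discrete
space `ℕ`.
-/

namespace Pool.Agent.Results.MP_4297ae_an.RemainderSHAI

open Pool.Agent.H6.Shai

universe u

/-- **Main theorem.**  Let `𝕜` be `ℝ` or `ℂ` (any `RCLike` field).  For every non-zero Banach
space `Y` over `𝕜`, every surjective algebra homomorphism from the algebra of bounded operators on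
`C(βℕ \ ℕ, 𝕜)` to the algebra of bounded operators on `Y` is injective. -/
theorem result (𝕜 : Type) [RCLike 𝕜] (Y : Type u) [NormedAddCommGroup Y] [NormedSpace 𝕜 Y]
    [CompleteSpace Y] [Nontrivial Y]
    (φ : (C(Remainder, 𝕜) →L[𝕜] C(Remainder, 𝕜)) →ₙₐ[𝕜] (Y →L[𝕜] Y))
    (hφ : Function.Surjective φ) : Function.Injective φ :=
  shai_remainder 𝕜 (shai_NU 𝕜) Y φ hφ

end Pool.Agent.Results.MP_4297ae_an.RemainderSHAI
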